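import Mathlib

set_option autoImplicit false

namespace Pool.Agent.Results.MP_0548d2_gt.Holonomy

/-- A multi-flag: a set of subspaces containing `0` and `V`, closed under intersection. -/
def IsMF {k V : Type} [Field k] [AddCommGroup V] [Module k V] (S : Set (Submodule k V)) : Prop :=
  ⊥ ∈ S ∧ ⊤ ∈ S ∧ ∀ A ∈ S, ∀ B ∈ S, A ⊓ B ∈ S

/-- The multi-flag generated by `T`. -/
def gen {k V : Type} [Field k] [AddCommGroup V] [Module k V] (T : Set (Submodule k V)) :
    Set (Submodule k V) :=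
  ⋂₀ {S | IsMF S ∧ T ⊆ S}

section
variable {k C : Type} [Field k] [PartialOrder C] {M : C → Type} [∀ x, AddCommGroup (M x)]
  [∀ x, Module k (M x)]

/-- The maps `φ` form a functor on the poset `C`. -/
def IsModule (φ : ∀ x y : C, x ≤ y → (M x →ₗ[k] M y)) : Prop :=
  (∀ x, φ x x le_rfl = LinearMap.id) ∧
    ∀ x y z (h : x ≤ y) (h' : y ≤ z), φ x z (h.trans h') = (φ y z h').comp (φ x y h)

/-- Level zero of the local structure. -/
def base (φ : ∀ x y : C, x ≤ y → (M x →ₗ[k] M y)) (x : C) : Set (Submodule k (M x)) :=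
  gen ({W | ∃ y, ∃ h : x ≤ y, W = LinearMap.ker (φ x y h)} ∪
    {W | ∃ z, ∃ h : z ≤ x, W = LinearMap.range (φ z x h)})

/-- The recursion started at the family `G`. -/
def level (φ : ∀ x y : C, x ≤ y → (M x →ₗ[k] M y)) (G : ∀ x, Set (Submodule k (M x))) :
    ℕ → ∀ x, Set (Submodule k (M x))
  | 0 => G
  | n + 1 => fun x => gen ({W | ∃ y, ∃ h : x ≤ y, ∃ U ∈ level φ G n y, W = U.comap (φ x y h)} ∪
      {W | ∃ z, ∃ h : z ≤ x, ∃ U ∈ level φ G n z, W = U.map (φ z x h)})

/-- Stable local structure. -/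
def Stable (φ : ∀ x y : C, x ≤ y → (M x →ₗ[k] M y)) : Prop :=
  ∀ x, ∃ N, ∀ n, N ≤ n → level φ (base φ) n x = level φ (base φ) (n + 1) x

/-- Strongly stable local structure. -/
def StronglyStable (φ : ∀ x y : C, x ≤ y → (M x →ₗ[k] M y)) : Prop :=
  ∀ F : ∀ x, Set (Submodule k (M x)), (∀ x, (F x).Finite ∧ IsMF (F x)) →
    ∃ N, ∀ x, ⋃ n, level φ (fun y => gen (base φ y ∪ F y)) n x
      = level φ (fun y => gen (base φ y ∪ F y)) N x

end

/-- The poset `C` is connected: its comparability graph is connected. -/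
def Conn (C : Type) [PartialOrder C] : Prop :=
  Nonempty C ∧ ∀ x y : C, Relation.ReflTransGen (fun a b => a ≤ b ∨ b ≤ a) x y

lemma gen_sub {k V : Type} [Field k] [AddCommGroup V] [Module k V] {T S : Set (Submodule k V)}
    (hS : IsMF S) (h : T ⊆ S) : gen T ⊆ S := Set.sInter_subset_of_mem ⟨hS, h⟩

lemma sub_gen {k V : Type} [Field k] [AddCommGroup V] [Module k V] (T : Set (Submodule k V)) :
    T ⊆ gen T := fun _ hW _ hS => hS.2 hW

lemma bot_gen {k V : Type} [Field k] [AddCommGroup V] [Module k V] (T : Set (Submodule k V)) :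
    ⊥ ∈ gen T := fun _ hS => hS.1.1

lemma top_gen {k V : Type} [Field k] [AddCommGroup V] [Module k V] (T : Set (Submodule k V)) :
    ⊤ ∈ gen T := fun _ hS => hS.1.2.1

/-- The crown `0, 1 < 2, 3`. -/
def P : Type := Fin 4

instance : Fintype P := inferInstanceAs (Fintype (Fin 4))
instance : DecidableEq P := inferInstanceAs (DecidableEq (Fin 4))

def v (x : P) : ℕ := Fin.val (n := 4) x

instance : PartialOrder P where
  le x y := x = y ∨ (v x < 2 ∧ 2 ≤ v y)
  le_refl x := Or.inl rfl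
  le_trans x y z h1 h2 := by
    rcases h1 with rfl | h1
    · exact h2
    · rcases h2 with rfl | h2
      · exact Or.inr h1
      · omega
  le_antisymm x y h1 h2 := by
    rcases h1 with h1 | h1
    · exact h1
    · rcases h2 with h2 | h2
      · exact h2.symm
      · omega

def sh (c : ℚ) : (ℚ × ℚ) →ₗ[ℚ] (ℚ × ℚ) where
  toFun p := (p.1 + c * p.2, p.2)
  map_add' a b := by ext <;> simp; ring
  map_smul' r a := by ext <;> simp; ring

def w (x y : P) : ℤ := if v x = 1 ∧ v y = 3 then 1 else 0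

def ph (x y : P) (_ : x ≤ y) : (ℚ × ℚ) →ₗ[ℚ] (ℚ × ℚ) := sh (w x y)

def L (j : ℤ) : Submodule ℚ (ℚ × ℚ) where
  carrier := {p | p.1 = j * p.2}
  add_mem' := by
    intro a b ha hb
    simp only [Set.mem_setOf_eq, Prod.fst_add, Prod.snd_add] at *
    rw [ha, hb]; ring
  zero_mem' := by simp
  smul_mem' := by
    intro c a ha
    simp only [Set.mem_setOf_eq, Prod.smul_fst, Prod.smul_snd, smul_eq_mul] at *
    rw [ha]; ring

lemma memL (j : ℤ) (p : ℚ × ℚ) : p ∈ L j ↔ p.1 = j * p.2 := Iff.rfl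

lemma sh_bij (c : ℚ) : Function.Bijective (sh c) := by
  constructor
  · intro a b h
    have h1 := congrArg Prod.fst h
    have h2 := congrArg Prod.snd h
    simp [sh] at h1 h2
    ext
    · rw [h2] at h1; linarith
    · exact h2
  · intro p
    exact ⟨(p.1 - c * p.2, p.2), by simp [sh]⟩

lemma comap_L (c j : ℤ) : (L j).comap (sh c) = L (j - c) := by
  ext p
  simp only [Submodule.mem_comap, memL, sh, LinearMap.coe_mk, AddHom.coe_mk]
  push_cast
  constructor <;> intro h <;> linarith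

lemma map_L (c j : ℤ) : (L j).map (sh c) = L (j + c) := by
  have : L j = (L (j + c)).comap (sh c) := by rw [comap_L]; simp
  rw [this, Submodule.map_comap_eq_of_surjective (sh_bij c).2]

lemma L_inf {i j : ℤ} (h : i ≠ j) : L i ⊓ L j = ⊥ := by
  rw [eq_bot_iff]
  rintro p ⟨h1, h2⟩
  have h1' : p.1 = i * p.2 := h1
  have h2' : p.1 = j * p.2 := h2
  have h3 : (i : ℚ) ≠ j := by exact_mod_cast h
  have h4 : p.2 = 0 := by
    by_contra h5
    exact h3 (mul_right_cancel₀ h5 (h1'.symm.trans h2'))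
  rw [Submodule.mem_bot]
  ext
  · simp [h1', h4]
  · simp [h4]

def S (n : ℤ) : Set (Submodule ℚ (ℚ × ℚ)) := {W | W = ⊥ ∨ W = ⊤ ∨ ∃ j : ℤ, |j| ≤ n ∧ W = L j}

lemma S_mf (n : ℤ) : IsMF (S n) := by
  refine ⟨Or.inl rfl, Or.inr (Or.inl rfl), ?_⟩
  rintro A (rfl | rfl | ⟨i, hi, rfl⟩) B hB
  · left; simp
  · simpa using hB
  · rcases hB with rfl | rfl | ⟨j, hj, rfl⟩
    · left; simp
    · right; right; exact ⟨i, hi, by simp⟩
    · by_cases h : i = j
      · right; right; exact ⟨i, hi, by simp [h]⟩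
      · left; exact L_inf h

lemma w_bd (x y : P) : 0 ≤ w x y ∧ w x y ≤ 1 := by
  unfold w; split_ifs <;> simp

lemma base_sub (x : P) : base (M := fun _ => ℚ × ℚ) ph x ⊆ S (-1) := by
  apply gen_sub (S_mf _)
  rintro W (⟨y, h, rfl⟩ | ⟨z, h, rfl⟩)
  · exact Or.inl (LinearMap.ker_eq_bot.2 (sh_bij _).1)
  · exact Or.inr (Or.inl (LinearMap.range_eq_top.2 (sh_bij _).2))

lemma step (G : P → Set (Submodule ℚ (ℚ × ℚ))) (n : ℕ) (a b : ℤ)
    (hab : ∀ j : ℤ, |j| ≤ a → |j| + 1 ≤ b)
    (h : ∀ x, level (M := fun _ => ℚ × ℚ) ph G n x ⊆ S a) (x : P) :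
    level (M := fun _ => ℚ × ℚ) ph G (n + 1) x ⊆ S b := by
  apply gen_sub (S_mf _)
  rintro W (⟨y, hxy, U, hU, rfl⟩ | ⟨z, hzx, U, hU, rfl⟩)
  · rcases h y hU with rfl | rfl | ⟨j, hj, rfl⟩
    · exact Or.inl (LinearMap.ker_eq_bot.2 (sh_bij _).1)
    · exact Or.inr (Or.inl (by simp))
    · refine Or.inr (Or.inr ⟨j - w x y, ?_, comap_L _ _⟩)
      have := hab j hj
      have := w_bd x y
      have := le_abs_self j
      have := neg_abs_le j
      rw [abs_le]; constructor <;> omega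
  · rcases h z hU with rfl | rfl | ⟨j, hj, rfl⟩
    · exact Or.inl (by simp)
    · exact Or.inr (Or.inl (by
        rw [Submodule.map_top]; exact LinearMap.range_eq_top.2 (sh_bij _).2))
    · refine Or.inr (Or.inr ⟨j + w z x, ?_, map_L _ _⟩)
      have := hab j hj
      have := w_bd z x
      have := le_abs_self j
      have := neg_abs_le j
      rw [abs_le]; constructor <;> omega

def p0 : P := (0 : Fin 4)
def p1 : P := (1 : Fin 4)
def p2 : P := (2 : Fin 4)
def p3 : P := (3 : Fin 4)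

lemma h02 : p0 ≤ p2 := Or.inr (by decide)
lemma h03 : p0 ≤ p3 := Or.inr (by decide)
lemma h12 : p1 ≤ p2 := Or.inr (by decide)
lemma h13 : p1 ≤ p3 := Or.inr (by decide)

lemma up (G : P → Set (Submodule ℚ (ℚ × ℚ))) (n : ℕ) (x y : P) (h : x ≤ y) (j : ℤ)
    (hj : L j ∈ level (M := fun _ => ℚ × ℚ) ph G n x) :
    L (j + w x y) ∈ level (M := fun _ => ℚ × ℚ) ph G (n + 1) y :=
  sub_gen _ (Or.inr ⟨x, h, _, hj, (map_L _ _).symm⟩)

lemma down (G : P → Set (Submodule ℚ (ℚ × ℚ))) (n : ℕ) (x y : P) (h : x ≤ y) (j : ℤ)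
    (hj : L j ∈ level (M := fun _ => ℚ × ℚ) ph G n y) :
    L (j - w x y) ∈ level (M := fun _ => ℚ × ℚ) ph G (n + 1) x :=
  sub_gen _ (Or.inl ⟨y, h, _, hj, (comap_L _ _).symm⟩)

theorem result : ∃ (C : Type) (_ : Fintype C) (_ : PartialOrder C) (M : C → Type)
    (_ : ∀ x, AddCommGroup (M x)) (_ : ∀ x, Module ℚ (M x))
    (φ : ∀ x y : C, x ≤ y → (M x →ₗ[ℚ] M y)),
    Conn C ∧ (∀ x, FiniteDimensional ℚ (M x)) ∧ IsModule φ ∧ Stable φ ∧ ¬ StronglyStable φ := by
  refine ⟨P, inferInstance, inferInstance, fun _ => ℚ × ℚ, inferInstance, inferInstance, ph,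
    ⟨⟨p0⟩, ?_⟩, fun _ => inferInstance, ⟨?_, ?_⟩, ?_, ?_⟩
  · have h0 : ∀ x : P, Relation.ReflTransGen (fun a b => a ≤ b ∨ b ≤ a) x p0 ∧
        Relation.ReflTransGen (fun a b => a ≤ b ∨ b ≤ a) p0 x := by
      intro x
      have : x = p0 ∨ x = p1 ∨ x = p2 ∨ x = p3 := by revert x; decide
      rcases this with rfl | rfl | rfl | rfl
      · exact ⟨.refl, .refl⟩
      · exact ⟨.head (b := p2) (Or.inl h12) (.single (Or.inr h02)),
          .head (b := p2) (Or.inl h02) (.single (Or.inr h12))⟩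
      · exact ⟨.single (Or.inr h02), .single (Or.inl h02)⟩
      · exact ⟨.single (Or.inr h03), .single (Or.inl h03)⟩
    exact fun x y => (h0 x).1.trans (h0 y).2
  · intro x
    have : w x x = 0 := by unfold w; rw [if_neg]; omega
    ext <;> simp [ph, sh, this]
  · intro x y z h h'
    have : w x z = w x y + w y z := by
      rcases h with rfl | h
      · have : w x x = 0 := by unfold w; rw [if_neg]; omega
        omega
      · rcases h' with rfl | h'
        · have : w y y = 0 := by unfold w; rw [if_neg]; omega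
          omega
        · omega
    ext <;> simp [ph, sh, this]
  · have h1 : ∀ n x, level (M := fun _ => ℚ × ℚ) ph (base ph) n x ⊆ S (-1) := by
      intro n
      induction n with
      | zero => exact base_sub
      | succ n ih =>
        exact step _ n (-1) (-1) (fun j hj => by have := abs_nonneg j; omega) ih
    have h2 : ∀ n x, S (-1) ⊆ level (M := fun _ => ℚ × ℚ) ph (base ph) n x := by
      rintro n x W (rfl | rfl | ⟨j, hj, -⟩)
      · cases n <;> exact bot_gen _
      · cases n <;> exact top_gen _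
      · have := abs_nonneg j; omega
    exact fun x => ⟨0, fun n _ => Set.Subset.antisymm ((h1 _ _).trans (h2 _ _))
      ((h1 _ _).trans (h2 _ _))⟩
  · intro hs
    have hfin : (S 0).Finite := by
      apply (Set.toFinite {⊥, ⊤, L 0}).subset
      rintro W (rfl | rfl | ⟨j, hj, rfl⟩)
      · simp
      · simp
      · simp [abs_nonpos_iff.1 hj]
    obtain ⟨N, hN⟩ := hs (fun _ => S 0) (fun _ => ⟨hfin, S_mf 0⟩)
    set G : P → Set (Submodule ℚ (ℚ × ℚ)) :=
      fun y => gen (base (M := fun _ => ℚ × ℚ) ph y ∪ S 0) with hG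
    have h1 : ∀ (n : ℕ) x, level (M := fun _ => ℚ × ℚ) ph G n x ⊆ S n := by
      intro n
      induction n with
      | zero =>
        intro x
        apply gen_sub (S_mf _)
        rintro W (hW | hW)
        · rcases base_sub x hW with rfl | rfl | ⟨j, hj, -⟩
          · exact Or.inl rfl
          · exact Or.inr (Or.inl rfl)
          · have := abs_nonneg j; omega
        · exact hW
      | succ n ih => exact step _ n n _ (fun j hj => by push_cast; omega) ih
    have h2 : ∀ n : ℕ, L n ∈ level (M := fun _ => ℚ × ℚ) ph G (4 * n) p0 := by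
      intro n
      induction n with
      | zero => exact sub_gen _ (Or.inr (Or.inr (Or.inr ⟨0, by simp, rfl⟩)))
      | succ n ih =>
        have := down G _ _ _ h03 _ (up G _ _ _ h13 _ (down G _ _ _ h12 _ (up G _ _ _ h02 _ ih)))
        have e : (n : ℤ) + w p0 p2 - w p1 p2 + w p1 p3 - w p0 p3 = ((n + 1 : ℕ) : ℤ) := by
          have a1 : w p0 p2 = 0 := by decide
          have a2 : w p1 p2 = 0 := by decide
          have a3 : w p1 p3 = 1 := by decide
          have a4 : w p0 p3 = 0 := by decide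
          rw [a1, a2, a3, a4]; push_cast; ring
        rw [e] at this
        exact this
    have h3 : L ((N + 1 : ℕ) : ℤ) ∈ level (M := fun _ => ℚ × ℚ) ph G N p0 := by
      rw [← hN p0]
      exact Set.mem_iUnion.2 ⟨_, h2 (N + 1)⟩
    have m1 : ((((N + 1 : ℕ) : ℤ) : ℚ), (1 : ℚ)) ∈ L ((N + 1 : ℕ) : ℤ) := by simp [memL]
    rcases h1 N p0 h3 with h | h | ⟨j, hj, h⟩
    · rw [h, Submodule.mem_bot] at m1
      simpa using congrArg Prod.snd m1
    · have : ((1 : ℚ), (0 : ℚ)) ∈ L ((N + 1 : ℕ) : ℤ) := by rw [h]; trivial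
      simp [memL] at this
    · rw [h, memL] at m1
      have : ((N + 1 : ℕ) : ℤ) = j := by
        simp only [mul_one] at m1
        exact_mod_cast m1
      have := le_abs_self j
      push_cast at *
      omega

end Pool.Agent.Results.MP_0548d2_gt.Holonomy
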